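import Pool.Agent.helper36.PP.SpecL

/-!
# Project pp (MP_70a088_an), module PAIR: pairing of the quadratic differential with the line field
-/

set_option autoImplicit false

open Complex Metric Set Filter Topology MeasureTheory MPS MQ Pool.Agent.helper98.ILF

noncomputable section

namespace PPS

theorem PAIR_BB {k : ℕ} [NeZero k] (b g : ZMod k → ℂ) : Measurable (BB b g) := by
  unfold BB
  apply Finset.measurable_sum
  intro i _
  have h1 : Measurable fun z : ℂ => z - b i := measurable_id.sub_const (b i)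
  exact ((h1.pow_const 2).const_div 1).add (h1.const_div (g i))

theorem PAIR_meas {k : ℕ} [NeZero k] (b : ZMod k → ℂ) (r : ZMod k → ℝ) :
    MeasurableSet (NLF.KK b r) :=
  (MeasurableSet.iUnion fun _ => measurableSet_ball).compl

theorem PAIR_fmeas (f : Polynomial ℂ) {K : Set ℂ} (hK : MeasurableSet K) :
    MeasurableSet {y : ℂ | f.eval y ∈ K} := by
  have h : Measurable fun y : ℂ => f.eval y := f.continuous.measurable
  exact h hK

theorem PAIR_bd {k : ℕ} [NeZero k] (b g : ZMod k → ℂ) (r : ZMod k → ℝ) (hr : ∀ i, 0 < r i)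
    (z : ℂ) (hz : z ∈ NLF.KK b r) :
    ‖BB b g z‖ ≤ ∑ i, (1 / r i ^ 2 + ‖g i‖ / r i) := by
  have h1 : ∀ i, r i ≤ ‖z - b i‖ := by
    intro i
    by_contra h
    push Not at h
    apply hz
    rw [mem_iUnion]
    exact ⟨i, by rwa [mem_ball, dist_eq_norm]⟩
  unfold BB
  refine (norm_sum_le _ _).trans (Finset.sum_le_sum fun i _ => ?_)
  refine (norm_add_le _ _).trans (add_le_add ?_ ?_)
  · rw [norm_div, norm_pow, norm_one]
    have := hr i
    exact one_div_le_one_div_of_le (by positivity) (pow_le_pow_left₀ this.le (h1 i) 2)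
  · rw [norm_div]
    exact div_le_div_of_nonneg_left (norm_nonneg _) (hr i) (h1 i)

theorem PAIR_int {k : ℕ} [NeZero k] (f : Polynomial ℂ) (A : ℝ) (b g : ZMod k → ℂ) (μ : ℂ → ℂ)
    (hμ : LF f A μ) (r : ZMod k → ℝ) (hr : ∀ i, 0 < r i) :
    IntegrableOn (fun z => μ z * BB b g z) (NLF.KK b r) := by
  have hB : Measurable (BB b g) := PAIR_BB b g
  have hm : Measurable fun z => μ z * BB b g z := hμ.meas.mul hB
  have hK := PAIR_meas b r
  have h1 : IntegrableOn (fun z => μ z * BB b g z) (NLF.KK b r ∩ ball 0 A) := by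
    refine Measure.integrableOn_of_bounded (M := ∑ i, (1 / r i ^ 2 + ‖g i‖ / r i)) ?_
      hm.aestronglyMeasurable ?_
    · exact ne_of_lt (lt_of_le_of_lt (measure_mono inter_subset_right) measure_ball_lt_top)
    · rw [ae_restrict_iff' (hK.inter measurableSet_ball)]
      refine Eventually.of_forall fun z hz => ?_
      rw [norm_mul]
      calc ‖μ z‖ * ‖BB b g z‖ ≤ 1 * ‖BB b g z‖ :=
            mul_le_mul_of_nonneg_right (hμ.bd z) (norm_nonneg _)
        _ = ‖BB b g z‖ := one_mul _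
        _ ≤ _ := PAIR_bd b g r hr z hz.1
  refine h1.of_forall_sdiff_eq_zero hK fun z hz => ?_
  have h2 : μ z = 0 := by
    by_contra h
    exact hz.2 ⟨hz.1, by rw [mem_ball, dist_zero_right]; exact hμ.supp z h⟩
  rw [h2, zero_mul]

theorem PAIR_pre {k : ℕ} [NeZero k] (f : Polynomial ℂ) (b : ZMod k → ℂ) (hb : IsCyc f b)
    (r : ZMod k → ℝ) (hr : ∀ i, 0 < r i) :
    ∃ r' : ZMod k → ℝ, (∀ i, 0 < r' i) ∧ {y : ℂ | f.eval y ∈ NLF.KK b r} ⊆ NLF.KK b r' := by
  have h1 : ∀ i, ∃ e > 0, ∀ y ∈ ball (b i) e, f.eval y ∈ ball (b (i + 1)) (r (i + 1)) := by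
    intro i
    have hc : ContinuousAt (fun y : ℂ => f.eval y) (b i) := f.continuous.continuousAt
    have h2 : ∀ᶠ y in 𝓝 (b i), f.eval y ∈ ball (b (i + 1)) (r (i + 1)) := by
      apply hc
      have h3 : f.eval (b i) = b (i + 1) := hb.step i
      show ball (b (i + 1)) (r (i + 1)) ∈ 𝓝 (f.eval (b i))
      rw [h3]
      exact ball_mem_nhds _ (hr _)
    obtain ⟨e, he, h4⟩ := Metric.eventually_nhds_iff_ball.1 h2
    exact ⟨e, he, h4⟩
  choose e he h2 using h1
  refine ⟨e, he, fun y hy => ?_⟩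
  intro h3
  rw [mem_iUnion] at h3
  obtain ⟨i, hi⟩ := h3
  apply hy
  rw [mem_iUnion]
  exact ⟨i + 1, h2 i y hi⟩

theorem PAIR_enorm (S : Set ℂ) (h : ℂ → ℂ) (B : ℂ → ℂ)
    (hb : ∀ z, ‖h z‖ ≤ ‖B z‖) :
    ENNReal.ofReal ‖∫ z in S, h z‖ ≤ ∫⁻ z in S, ENNReal.ofReal ‖B z‖ := by
  rw [ofReal_norm]
  refine (enorm_integral_le_lintegral_enorm _).trans ?_
  refine lintegral_mono fun z => ?_
  rw [← ofReal_norm]
  exact ENNReal.ofReal_le_ofReal (hb z)

theorem PAIR (hIP : IP_stmt) : PAIR_stmt := by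
  intro k _ f b g A μ r hn hb hμ hr
  have hB : Measurable (BB b g) := PAIR_BB b g
  set K := NLF.KK b r with hKdef
  set fK : Set ℂ := {y : ℂ | f.eval y ∈ K} with hfK
  have hKm : MeasurableSet K := PAIR_meas b r
  have hfm : MeasurableSet fK := PAIR_fmeas f hKm
  have hiK : IntegrableOn (fun z => μ z * BB b g z) K := PAIR_int f A b g μ hμ r hr
  obtain ⟨r', hr', hsub⟩ := PAIR_pre f b hb r hr
  have hifK : IntegrableOn (fun z => μ z * BB b g z) fK :=
    (PAIR_int f A b g μ hμ r' hr').mono_set hsub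
  obtain ⟨hT1, hT2⟩ := hIP f A μ hn hμ (BB b g) K hB hKm hifK
  have hae : ∫ z in K, μ z * er f b g z =
      ∫ z in K, (μ z * BB b g z - μ z * TT f (BB b g) z) := by
    congr 1
    funext z
    unfold er
    ring
  rw [hae, integral_sub hiK hT1, hT2]
  have hd1 : ∫ z in K, μ z * BB b g z =
      (∫ z in K ∩ fK, μ z * BB b g z) + ∫ z in K \ fK, μ z * BB b g z :=
    (integral_inter_add_sdiff hfm hiK).symm
  have hd2 : ∫ z in fK, μ z * BB b g z =
      (∫ z in fK ∩ K, μ z * BB b g z) + ∫ z in fK \ K, μ z * BB b g z :=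
    (integral_inter_add_sdiff hKm hifK).symm
  have hd3 : ∫ z in K \ fK, μ z * BB b g z = ∫ z in (K \ fK) ∩ ball 0 A, μ z * BB b g z := by
    refine setIntegral_eq_of_subset_of_forall_sdiff_eq_zero (hKm.diff hfm) inter_subset_left
      fun z hz => ?_
    have h2 : μ z = 0 := by
      by_contra h
      exact hz.2 ⟨hz.1, by rw [mem_ball, dist_zero_right]; exact hμ.supp z h⟩
    rw [h2, zero_mul]
  rw [hd1, hd2, inter_comm fK K, add_sub_add_left_eq_sub, hd3]
  have hb' : ∀ z, ‖μ z * BB b g z‖ ≤ ‖BB b g z‖ := by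
    intro z
    rw [norm_mul]
    calc ‖μ z‖ * ‖BB b g z‖ ≤ 1 * ‖BB b g z‖ :=
          mul_le_mul_of_nonneg_right (hμ.bd z) (norm_nonneg _)
      _ = ‖BB b g z‖ := one_mul _
  have hA := PAIR_enorm (fK \ K) (fun z => μ z * BB b g z) (BB b g) hb'
  have hC := PAIR_enorm ((K \ fK) ∩ ball 0 A) (fun z => μ z * BB b g z) (BB b g)
    hb'
  refine (ENNReal.ofReal_le_ofReal (norm_sub_le _ _)).trans ?_
  rw [ENNReal.ofReal_add (norm_nonneg _) (norm_nonneg _), add_comm]
  exact add_le_add hA hC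

end PPS
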