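import Pool.Agent.helper36.PP.SpecB
import Pool.Agent.helper25.MP.PNX

/-!
# Project pp (MP_70a088_an), module PNX: the induced natural map at the pole `b (-Q)`
-/

set_option autoImplicit false

open Complex Metric Set Filter Topology MeasureTheory MPS

noncomputable section

namespace PPS

/-- PNX. -/
theorem PNX (hLEA : LEA_stmt) (hP1A : P1A_stmt) (hP1U : P1U_stmt) : PNX_stmt := by
  intro n k _ f b g ψ ra R ε δ A G Q P κ hH hQ hP hP0 hPb hPt
  have hδ := hH.d0
  obtain ⟨W, hW1, hW2⟩ := PNX_inv (a₁ := A Q + δ / 8) (e := δ / 32) κ (by positivity) hP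
    (fun u hu => (hPb u hu).1) (fun u hu => (hPb u hu).2)
  obtain ⟨hdiff, -, -, hlev, -, -⟩ := hP1A n k f b g ψ ra R ε δ A G Q hH
  obtain ⟨-, hder⟩ := hP1U n k f b g ψ ra R ε δ A G Q hH
  have hGd : DifferentiableOn ℂ (G Q) (ball 0 (Real.exp (-A Q))) := hdiff Q le_rfl
  have hsub : ball (0 : ℂ) (Real.exp (-(A Q + δ / 8))) ⊆ ball 0 (Real.exp (-A Q)) := by
    refine ball_subset_ball (Real.exp_le_exp.2 ?_)
    linarith
  have hHPsub : ∀ w, w ∈ HP (A Q + δ / 8) → w ∈ HP (A Q) := by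
    intro w hw
    have h1 : w.re < -(A Q + δ / 8) := hw
    show w.re < -A Q
    linarith
  have hHPo : IsOpen (HP (A Q)) := isOpen_lt Complex.continuous_re continuous_const
  obtain ⟨hav, -, -, -, -⟩ := hLEA k f b g (GW G) (HP (A Q)) Q hH.su.cyc hHPo
    (hlev Q le_rfl)
  have hv0 : (0 : ℂ) ∈ ball (0 : ℂ) (Real.exp (κ.re - (A Q + δ / 8) - δ / 32)) := by
    rw [mem_ball_zero_iff, norm_zero]
    exact Real.exp_pos _
  have hu0 : (0 : ℂ) ∈ ball (0 : ℂ) (Real.exp (-(A Q + δ / 8))) := by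
    rw [mem_ball_zero_iff, norm_zero]
    exact Real.exp_pos _
  have hW0 : W 0 = 0 := by
    have h1 := hW2 0 hu0
    rwa [zero_mul] at h1
  have hda : ∀ v ∈ ball (0 : ℂ) (Real.exp (κ.re - (A Q + δ / 8) - δ / 32)),
      HasDerivAt (fun v => G Q (W v))
        (deriv (G Q) (W v) * (exp (κ + P (W v)) * (1 + W v * deriv P (W v)))⁻¹) v := by
    intro v hv
    obtain ⟨h1, -, h2⟩ := hW1 v hv
    have h3 : DifferentiableAt ℂ (G Q) (W v) :=
      hGd.differentiableAt (isOpen_ball.mem_nhds (hsub h1))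
    exact HasDerivAt.comp v h3.hasDerivAt h2
  have hd0 : deriv (fun v => G Q (W v)) 0 = deriv (G Q) 0 * (exp κ)⁻¹ := by
    rw [(hda 0 hv0).deriv, hW0, hP0, add_zero, zero_mul, add_zero, mul_one]
  refine ⟨fun v => G Q (W v), ⟨Real.exp_pos _, ?_, ?_, ?_, ?_, ?_⟩, ?_, ?_⟩
  · intro v hv
    exact (hda v hv).differentiableAt.differentiableWithinAt
  · show G Q (W 0) = b (-(Q : ZMod k))
    rw [hW0]
    exact hH.sys.val Q le_rfl
  · rw [hd0]
    exact mul_ne_zero (hder Q le_rfl) (inv_ne_zero (Complex.exp_ne_zero _))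
  · intro v hv hne j
    obtain ⟨h1, h2, -⟩ := hW1 v hv
    have h3 : W v ≠ 0 := by
      intro h
      rw [h, zero_mul] at h2
      exact hne h2.symm
    have h4 := hav Q le_rfl (log (W v)) (hHPsub _ (PNX_log h1 h3)) j
    unfold GW at h4
    rw [Complex.exp_log h3] at h4
    exact h4
  · intro v hv hne
    obtain ⟨h1, h2, -⟩ := hW1 v hv
    have h3 : W v ≠ 0 := by
      intro h
      rw [h, zero_mul] at h2
      exact hne h2.symm
    rw [(hda v hv).deriv]
    show v ^ 2 * (deriv (G Q) (W v) * (exp (κ + P (W v)) * (1 + W v * deriv P (W v)))⁻¹) ^ 2 *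
      BB b g (G Q (W v)) = 1
    set u := W v with hu
    have h4 := hPt (log u) (PNX_log h1 h3)
    have h5 : exp (log u) = u := Complex.exp_log h3
    have h6 : deriv (GW G Q) (log u) = deriv (G Q) u * u := by
      have h7 : DifferentiableAt ℂ (G Q) (exp (log u)) := by
        rw [h5]
        exact hGd.differentiableAt (isOpen_ball.mem_nhds (hsub h1))
      have h8 := HasDerivAt.comp (log u) h7.hasDerivAt (Complex.hasDerivAt_exp (log u))
      rw [h5] at h8
      exact h8.deriv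
    unfold tau at h4
    rw [h6] at h4
    have h9 : GW G Q (log u) = G Q u := by
      unfold GW
      rw [h5]
    rw [h9, h5] at h4
    obtain ⟨h10, -⟩ := PNX_dne κ (fun u hu => (hPb u hu).2) h1
    have h11 : exp (κ + P u) ≠ 0 := Complex.exp_ne_zero _
    rw [← h2]
    field_simp
    linear_combination (-1 : ℂ) * h4
  · rw [hd0, mul_assoc, inv_mul_cancel₀ (Complex.exp_ne_zero _), mul_one]
  · intro u hu _
    show G Q (W (u * exp (κ + P u))) = G Q u
    rw [hW2 u hu]

end PPS
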