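import Pool.Agent.helper57.PP.Spec

/-! Row CFR: a symmetric geodesic without conflict at the corner `p 0`. -/

set_option autoImplicit false

namespace Pool.Agent.helper57.PP

open Finset

theorem CFR (h1 : GEO_stmt) (h2 : HALF_stmt) (h3 : C4_stmt) (h4 : C5_stmt) (h5 : C6_stmt)
    (_h6 : ISO_stmt) : CFR_stmt := by
  intro W _ G σ hD
  have key : ∀ (n m : ℕ) (p : ℕ → W) (A : Finset (Finset W)), Geo G σ m p → Half G σ m p A →
      nu G m p A = n →
      ∃ (m : ℕ) (p : ℕ → W) (A : Finset (Finset W)), Geo G σ m p ∧ Half G σ m p A ∧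
        ∀ x ∈ vs A, (∀ i, x ≠ p i) →
          ¬ ({x, p 1} ∈ edges G ∧ {x, p (2 * m - 1)} ∈ edges G) := by
    intro n
    induction n using Nat.strong_induction_on with
    | _ n ih =>
      intro m p A hG hA hn
      by_cases hc : ∀ x ∈ vs A, (∀ i, x ≠ p i) →
          ¬ ({x, p 1} ∈ edges G ∧ {x, p (2 * m - 1)} ∈ edges G)
      · exact ⟨m, p, A, hG, hA, hc⟩
      · push Not at hc
        obtain ⟨x, hx, hxp, e1, e2⟩ := hc
        obtain ⟨D, hDA, hbd⟩ := h3 W G σ m p A x hD hG hA hx hxp e1 e2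
        obtain ⟨g, hf⟩ := h4 W G σ m p A x D hD hG hA hx hxp e1 e2 hDA hbd
        have hlt := h5 W G σ m p A x D hD hG hA hx hxp e1 e2 hDA hbd g hf
        rw [hn] at hlt
        exact ih _ hlt m _ _ g hf rfl
  obtain ⟨m, p, hG⟩ := h1 W G σ hD
  obtain ⟨A, hA⟩ := h2 W G σ m p hD hG
  exact key _ m p A hG hA rfl

end Pool.Agent.helper57.PP
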