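import Pool.Agent.helper57.PP.Spec

/-! Row LEQ: a path is determined by its edges and its first vertex. -/

set_option autoImplicit false

namespace Pool.Agent.helper57.PP

open Finset

theorem LEQ_aux {W : Type} [DecidableEq W] (L : List W) : ∀ (a : W) (L' : List W),
    (a :: L).Nodup → (a :: L').Nodup → pe (a :: L) = pe (a :: L') → L = L' := by
  induction L with
  | nil =>
    intro a L' _ _ h
    cases L' with
    | nil => rfl
    | cons b M =>
      rw [pe_singleton, pe_cons_cons] at h
      exact absurd (h ▸ Finset.mem_insert_self _ _) (Finset.notMem_empty ({a, b} : Finset W))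
  | cons b M ih =>
    intro a L' h1 h2 h
    cases L' with
    | nil =>
      rw [pe_singleton, pe_cons_cons] at h
      exact absurd (h ▸ Finset.mem_insert_self _ _) (Finset.notMem_empty ({a, b} : Finset W))
    | cons b' M' =>
      rw [pe_cons_cons, pe_cons_cons] at h
      have ha : a ∉ b :: M := (List.nodup_cons.1 h1).1
      have ha' : a ∉ b' :: M' := (List.nodup_cons.1 h2).1
      have hb : b ≠ a := by
        rintro rfl
        exact ha (List.mem_cons_self)
      have e1 : ({a, b} : Finset W) ∈ insert ({a, b'} : Finset W) (pe (b' :: M')) :=
        h ▸ Finset.mem_insert_self _ _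
      have e2 : b = b' := by
        rcases Finset.mem_insert.1 e1 with e3 | e3
        · have e4 : b ∈ ({a, b'} : Finset W) := by
            rw [← e3]; simp
          rcases Finset.mem_insert.1 e4 with e5 | e5
          · exact absurd e5 hb
          · exact Finset.mem_singleton.1 e5
        · exact absurd (mem_of_mem_pe e3 (Finset.mem_insert_self a _)) ha'
      subst e2
      have e6 : pe (b :: M) = pe (b :: M') := by
        ext e
        constructor
        · intro he
          rcases Finset.mem_insert.1 (h ▸ Finset.mem_insert_of_mem he) with e7 | e7
          · exact absurd (mem_of_mem_pe he (e7 ▸ Finset.mem_insert_self a _)) ha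
          · exact e7
        · intro he
          rcases Finset.mem_insert.1 (h.symm ▸ Finset.mem_insert_of_mem he) with e7 | e7
          · exact absurd (mem_of_mem_pe he (e7 ▸ Finset.mem_insert_self a _)) ha'
          · exact e7
      rw [ih b M' (List.nodup_cons.1 h1).2 (List.nodup_cons.1 h2).2 e6]

theorem LEQ : LEQ_stmt := by
  intro W _ a z l l' h1 h2 h
  exact List.append_cancel_right (LEQ_aux (l ++ [z]) a (l' ++ [z]) h1 h2 h)

end Pool.Agent.helper57.PP
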